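import Pool.Agent.W999.LS.Block

/-!
# Heights on products of powers of abelian varieties, for all polarizations
-/

set_option autoImplicit false

namespace Pool.Agent.Results.MP_9a3c31_nt.AllPolarizations

open Pool.Agent.W999.LS

theorem result (r : ℕ) (n : Fin r → ℕ) (M : Fin r → Type) [∀ j, AddCommGroup (M j)]
    (q : ∀ j, M j → ℝ) (hq : ∀ j, IsHeight (q j)) (μ : Fin r → ℝ) (hμ : ∀ j, 0 ≤ μ j)
    (hmin : ∀ j P, ¬ IsOfFinAddOrder P → μ j ≤ q j P)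
    (H : ∀ j, Matrix (Fin (n j)) (Fin (n j)) ℤ)
    (hH : ∀ j, ((H j).map (Int.cast : ℤ → ℝ)).PosDef)
    (X : Type) [AddCommGroup X] (T : X → ℝ) (hT : IsHeight T)
    (φ : (∀ j, Fin (n j) → M j) →+ X) (ψ : X →+ (∀ j, Fin (n j) → M j)) (N : ℕ) (hN : 0 < N)
    (hφψ : ∀ x, φ (ψ x) = N • x) (hTφ : ∀ P, T (φ P) = height q H P)
    (x : X) (hx : ∀ j, ∃ k, ¬ IsOfFinAddOrder (ψ x j k)) :
    (∑ j, (3 / 4 : ℝ) ^ (n j - 1) * μ j) / (N : ℝ) ^ 2 ≤ T x ∧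
    ∀ (f : Fin r → ℝ) (c : ℝ), 0 ≤ c → 1 ≤ r → (∀ j, c * max (f j) 1 ≤ μ j) →
      c / ((∑ j, n j : ℕ) * (N : ℝ) ^ 2) * (3 / 4 : ℝ) ^ ((∑ j, n j) - 1) *
        max (∑ j, n j * f j) 1 ≤ T x := by
  have h1 := main r n M q hq μ hμ hmin H hH X T hT φ ψ N hN hφψ hTφ x hx
  refine ⟨h1, ?_⟩
  intro f c hc hr hf
  have hn : ∀ j, 1 ≤ n j := by
    intro j
    obtain ⟨k, -⟩ := hx j
    have := k.2
    omega
  have h2 := numeric r n hn f μ c hc hr hf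
  have hN2 : (0 : ℝ) < (N : ℝ) ^ 2 := by positivity
  have h3 : c / ((∑ j, n j : ℕ) * (N : ℝ) ^ 2) * (3 / 4 : ℝ) ^ ((∑ j, n j) - 1) *
        max (∑ j, n j * f j) 1 =
      (c / (∑ j, n j : ℕ) * (3 / 4 : ℝ) ^ ((∑ j, n j) - 1) * max (∑ j, n j * f j) 1) /
        (N : ℝ) ^ 2 := by
    rw [← div_div]
    ring
  rw [h3]
  exact (div_le_div_of_nonneg_right h2 hN2.le).trans h1

end Pool.Agent.Results.MP_9a3c31_nt.AllPolarizations
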