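import Pool.Agent.W999.LS.Lang2

/-!
# The Lang-Silverman bound for products of powers of quadratic twists, for all polarizations
-/

set_option autoImplicit false

namespace Pool.Agent.Results.MP_9a3c31_nt.TwistProducts

open Pool.Agent.W999.LS

theorem result (S : Finset (Fin 3 → ℤ)) (hS : ∀ e ∈ S, Function.Injective e) (g : ℕ) (C : ℝ) :
    ∃ c : ℝ, 0 < c ∧ ∀ (r : ℕ) (n : Fin r → ℕ) (e : Fin r → Fin 3 → ℤ) (d : Fin r → ℤ)
      (q : ∀ j, (tw (e j) (d j)).toAffine.Point → ℝ) (f : Fin r → ℝ)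
      (H : ∀ j, Matrix (Fin (n j)) (Fin (n j)) ℤ)
      (P : ∀ j, Fin (n j) → (tw (e j) (d j)).toAffine.Point),
      1 ≤ r → ∑ j, n j = g → (∀ j, e j ∈ S) → (∀ j, Squarefree (d j)) →
      (∀ j, IsNT (tw (e j) (d j)) (q j)) → (∀ j, f j ≤ Real.log |(d j : ℝ)| / 2 + C) →
      (∀ j, ((H j).map (Int.cast : ℤ → ℝ)).PosDef) → (∀ j, ∃ k, ¬ IsOfFinAddOrder (P j k)) →
      c * max (∑ j, n j * f j) 1 ≤ height q H P :=
  twists S hS g C

end Pool.Agent.Results.MP_9a3c31_nt.TwistProducts
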